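import Pool.Agent.Helper37.OB.Perm

/-!
# Nowhere zero flows modulo three and subdivisions of bipartite cubic graphs: preparations

`G` is a graph with degrees `2` and `3` and `φ` is a nowhere zero flow on `G` with values in `ZMod 3`. At a vertex of degree `3` all the values of `φ` are equal: the
vertex is a source or a sink.
-/

set_option autoImplicit false
set_option linter.unusedSectionVars false

namespace Pool.Agent.Helper37.OB

open Finset

variable {V : Type*} [Fintype V] [DecidableEq V]

/-- `φ` is a nowhere zero flow on `G` with values in `ZMod 3`. -/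
structure NZFlow (G : SimpleGraph V) [DecidableRel G.Adj] (φ : V → V → ZMod 3) : Prop where
  anti : ∀ v w, φ w v = - φ v w
  ne : ∀ v w, G.Adj v w → φ v w ≠ 0
  sum : ∀ v, ∑ w ∈ G.neighborFinset v, φ v w = 0

/-- The vertices of degree three with all values `1`. -/
abbrev Source (G : SimpleGraph V) [DecidableRel G.Adj] (φ : V → V → ZMod 3) (v : V) : Prop :=
  G.degree v = 3 ∧ ∀ w, G.Adj v w → φ v w = 1

/-- The vertices of degree three with all values `-1`. -/
abbrev Sink (G : SimpleGraph V) [DecidableRel G.Adj] (φ : V → V → ZMod 3) (v : V) : Prop :=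
  G.degree v = 3 ∧ ∀ w, G.Adj v w → φ v w = -1

/-- The divergence of `φ f`. -/
def dv (G : SimpleGraph V) [DecidableRel G.Adj] (φ : V → V → ZMod 3) (f : Sym2 V → ZMod 3)
    (v : V) : ZMod 3 := ∑ w ∈ G.neighborFinset v, φ v w * f s(v, w)

variable {G : SimpleGraph V} [DecidableRel G.Adj] {φ : V → V → ZMod 3}

theorem nbr3 {v : V} (h : G.degree v = 3) :
    ∃ a b d, a ≠ b ∧ a ≠ d ∧ b ≠ d ∧ G.neighborFinset v = {a, b, d} :=
  card_eq_three.1 ((G.card_neighborFinset_eq_degree v).trans h)

theorem nbr3' {v a b : V} (h : G.degree v = 3) (ha : G.Adj v a) (hb : G.Adj v b) (hab : a ≠ b) :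
    ∃ d, a ≠ d ∧ b ≠ d ∧ G.neighborFinset v = {a, b, d} := by
  have h1 : (((G.neighborFinset v).erase a).erase b).card = 1 := by
    rw [card_erase_of_mem, card_erase_of_mem, G.card_neighborFinset_eq_degree, h]
    · simpa using ha
    · simp [hab.symm, hb]
  obtain ⟨d, hd⟩ := card_eq_one.1 h1
  have hd' : d ∈ ((G.neighborFinset v).erase a).erase b := by rw [hd]; exact mem_singleton_self d
  rw [mem_erase, mem_erase] at hd'
  refine ⟨d, hd'.2.1.symm, hd'.1.symm, ?_⟩
  rw [← hd, insert_erase, insert_erase]
  · simpa using ha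
  · simp [hab.symm, hb]

theorem sum3 {v a b d : V} (hab : a ≠ b) (had : a ≠ d) (hbd : b ≠ d)
    (h : G.neighborFinset v = {a, b, d}) (g : V → ZMod 3) :
    ∑ w ∈ G.neighborFinset v, g w = g a + g b + g d := by
  rw [h, sum_insert (by simp [hab, had]), sum_insert (by simp [hbd]), sum_singleton]
  ring

theorem three_eq : ∀ p q r : ZMod 3, p ≠ 0 → q ≠ 0 → r ≠ 0 → p + q + r = 0 →
    (p = 1 ∧ q = 1 ∧ r = 1) ∨ (p = -1 ∧ q = -1 ∧ r = -1) := by decide

theorem source_or_sink (hφ : NZFlow G φ) {v : V} (h : G.degree v = 3) :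
    Source G φ v ∨ Sink G φ v := by
  obtain ⟨a, b, d, hab, had, hbd, hN⟩ := nbr3 h
  have hs := hφ.sum v
  rw [sum3 hab had hbd hN] at hs
  have hadj : ∀ w, G.Adj v w ↔ w = a ∨ w = b ∨ w = d := by
    intro w
    rw [← SimpleGraph.mem_neighborFinset, hN]
    simp
  rcases three_eq _ _ _ (hφ.ne v a ((hadj a).2 (Or.inl rfl)))
    (hφ.ne v b ((hadj b).2 (Or.inr (Or.inl rfl))))
    (hφ.ne v d ((hadj d).2 (Or.inr (Or.inr rfl)))) hs with ⟨h1, h2, h3⟩ | ⟨h1, h2, h3⟩
  · refine Or.inl ⟨h, fun w hw => ?_⟩
    rcases (hadj w).1 hw with rfl | rfl | rfl <;> assumption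
  · refine Or.inr ⟨h, fun w hw => ?_⟩
    rcases (hadj w).1 hw with rfl | rfl | rfl <;> assumption

theorem not_source_and_sink {v : V} (h1 : Source G φ v) (h2 : Sink G φ v) : False := by
  obtain ⟨a, b, d, _, _, _, hN⟩ := nbr3 h1.1
  have ha : G.Adj v a := by
    rw [← SimpleGraph.mem_neighborFinset, hN]
    simp
  have := (h1.2 a ha).symm.trans (h2.2 a ha)
  revert this
  decide

/-- The sum of an antisymmetric function over all ordered pairs vanishes. -/
theorem sum_anti (g : V → V → ZMod 3) (hg : ∀ v w, g w v = - g v w) : ∑ v, ∑ w, g v w = 0 := by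
  have h1 : ∑ v, ∑ w, g v w = - ∑ v, ∑ w, g v w := by
    conv_lhs => rw [sum_comm]
    rw [← sum_neg_distrib]
    refine sum_congr rfl fun v _ => ?_
    rw [← sum_neg_distrib]
    exact sum_congr rfl fun w _ => hg v w
  generalize (∑ v, ∑ w, g v w) = t at h1
  revert t
  decide

theorem sum_nbr (v : V) (g : V → ZMod 3) :
    ∑ w ∈ G.neighborFinset v, g w = ∑ w, if G.Adj v w then g w else 0 := by
  rw [← sum_filter]
  refine sum_congr ?_ fun _ _ => rfl
  ext w
  simp

/-- Isotropy. -/
theorem isotropy (hφ : NZFlow G φ) (hdeg : ∀ v, G.degree v = 2 ∨ G.degree v = 3) (a b : V → V)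
    (hab : ∀ v, G.degree v = 3 → G.Adj v (a v) ∧ G.Adj v (b v) ∧ a v ≠ b v)
    (f f' : Sym2 V → ZMod 3) (hf : ∀ v, dv G φ f v = 0) (hf' : ∀ v, dv G φ f' v = 0) :
    ∑ v ∈ univ.filter (Sink G φ), (f s(v, b v) - f s(v, a v)) * (f' s(v, b v) - f' s(v, a v)) =
    ∑ v ∈ univ.filter (Source G φ),
      (f s(v, b v) - f s(v, a v)) * (f' s(v, b v) - f' s(v, a v)) := by
  have h0 : ∑ v, ∑ w ∈ G.neighborFinset v, φ v w * (f s(v, w) * f' s(v, w)) = 0 := by
    rw [← sum_anti (fun v w => if G.Adj v w then φ v w * (f s(v, w) * f' s(v, w)) else 0)]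
    · exact sum_congr rfl fun v _ => sum_nbr v _
    · intro v w
      simp only [G.adj_comm w v, Sym2.eq_swap (a := w) (b := v), hφ.anti v w]
      split_ifs <;> ring
  have hv : ∀ v, ∑ w ∈ G.neighborFinset v, φ v w * (f s(v, w) * f' s(v, w)) =
      (if Sink G φ v then (f s(v, b v) - f s(v, a v)) * (f' s(v, b v) - f' s(v, a v)) else 0) -
      (if Source G φ v then (f s(v, b v) - f s(v, a v)) * (f' s(v, b v) - f' s(v, a v))
        else 0) := by
    intro v
    rcases hdeg v with h2 | h3
    · have hns : ¬ Source G φ v := fun h => by have := h.1; omega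
      have hnt : ¬ Sink G φ v := fun h => by have := h.1; omega
      rw [if_neg hns, if_neg hnt, sub_zero]
      obtain ⟨p, q, hpq, hN⟩ := card_eq_two.1 ((G.card_neighborFinset_eq_degree v).trans h2)
      have e1 := hφ.sum v
      have e2 := hf v
      have e3 := hf' v
      have hp : G.Adj v p := by
        rw [← SimpleGraph.mem_neighborFinset, hN]
        simp
      have hne := hφ.ne v p hp
      unfold dv at e2 e3
      rw [hN, sum_insert (by simp [hpq]), sum_singleton] at e1 e2 e3 ⊢
      generalize φ v p = x at *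
      generalize φ v q = y at *
      generalize f s(v, p) = f1 at *
      generalize f s(v, q) = f2 at *
      generalize f' s(v, p) = g1 at *
      generalize f' s(v, q) = g2 at *
      have hy : y = -x := by linear_combination e1
      subst hy
      have e4 : f1 = f2 := by
        have : x * (f1 - f2) = 0 := by linear_combination e2
        exact sub_eq_zero.1 ((mul_eq_zero.1 this).resolve_left hne)
      have e5 : g1 = g2 := by
        have : x * (g1 - g2) = 0 := by linear_combination e3
        exact sub_eq_zero.1 ((mul_eq_zero.1 this).resolve_left hne)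
      subst e4 e5
      ring
    · obtain ⟨h1, h2, h4⟩ := hab v h3
      obtain ⟨d, had, hbd, hN⟩ := nbr3' h3 h1 h2 h4
      have hd : G.Adj v d := by
        rw [← SimpleGraph.mem_neighborFinset, hN]
        simp
      have e2 := hf v
      have e3 := hf' v
      unfold dv at e2 e3
      rw [sum3 h4 had hbd hN] at e2 e3 ⊢
      have h3' : (3 : ZMod 3) = 0 := by decide
      rcases source_or_sink hφ h3 with hs | hs
      · rw [if_pos hs, if_neg (fun h => not_source_and_sink hs h), hs.2 _ h1, hs.2 _ h2,
          hs.2 _ hd] at *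
        generalize f s(v, a v) = x at *
        generalize f s(v, b v) = y at *
        generalize f s(v, d) = z at *
        generalize f' s(v, a v) = x' at *
        generalize f' s(v, b v) = y' at *
        generalize f' s(v, d) = z' at *
        have hz : z = - x - y := by linear_combination e2
        have hz' : z' = - x' - y' := by linear_combination e3
        subst hz hz'
        linear_combination (x * x' + y * y') * h3'
      · rw [if_pos hs, if_neg (fun h => not_source_and_sink h hs), hs.2 _ h1, hs.2 _ h2,
          hs.2 _ hd] at *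
        generalize f s(v, a v) = x at *
        generalize f s(v, b v) = y at *
        generalize f s(v, d) = z at *
        generalize f' s(v, a v) = x' at *
        generalize f' s(v, b v) = y' at *
        generalize f' s(v, d) = z' at *
        have hz : z = - x - y := by linear_combination - e2
        have hz' : z' = - x' - y' := by linear_combination - e3
        subst hz hz'
        linear_combination (- (x * x' + y * y')) * h3'
  rw [sum_congr rfl fun v _ => hv v, sum_sub_distrib, ← sum_filter, ← sum_filter] at h0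
  exact sub_eq_zero.1 h0

theorem sum_antiZ (g : V → V → ℤ) (hg : ∀ v w, g w v = - g v w) : ∑ v, ∑ w, g v w = 0 := by
  have h1 : ∑ v, ∑ w, g v w = - ∑ v, ∑ w, g v w := by
    conv_lhs => rw [sum_comm]
    rw [← sum_neg_distrib]
    refine sum_congr rfl fun v _ => ?_
    rw [← sum_neg_distrib]
    exact sum_congr rfl fun w _ => hg v w
  omega

theorem val_cases : ∀ x : ZMod 3, x ≠ 0 → x = 1 ∨ x = -1 := by decide

/-- There are as many sources as sinks. -/
theorem card_source (hφ : NZFlow G φ) (hdeg : ∀ v, G.degree v = 2 ∨ G.degree v = 3) :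
    Fintype.card {v // Sink G φ v} = Fintype.card {v // Source G φ v} := by
  have h11 : ¬ (-1 : ZMod 3) = 1 := by decide
  have h0 : ∑ v, ∑ w, (if G.Adj v w then (if φ v w = 1 then (1 : ℤ) else -1) else 0) = 0 := by
    apply sum_antiZ
    intro v w
    by_cases h : G.Adj v w
    · rcases val_cases _ (hφ.ne v w h) with h1 | h1
      · rw [hφ.anti v w, h1]
        simp [h, h.symm, h11]
      · rw [hφ.anti v w, h1]
        simp [h, h.symm, h11]
    · have h' : ¬ G.Adj w v := fun h' => h h'.symm
      simp [h, h']
  have hsum : ∀ (v : V) (g : V → ℤ), ∑ w ∈ G.neighborFinset v, g w =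
      ∑ w, if G.Adj v w then g w else 0 := by
    intro v g
    rw [← sum_filter]
    refine sum_congr ?_ fun _ _ => rfl
    ext w
    simp
  have hv : ∀ v, ∑ w, (if G.Adj v w then (if φ v w = 1 then (1 : ℤ) else -1) else 0) =
      (if Source G φ v then 3 else 0) - (if Sink G φ v then 3 else 0) := by
    intro v
    rw [← hsum]
    rcases hdeg v with h2 | h3
    · have hns : ¬ Source G φ v := fun h => by have := h.1; omega
      have hnt : ¬ Sink G φ v := fun h => by have := h.1; omega
      rw [if_neg hns, if_neg hnt, sub_zero]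
      obtain ⟨p, q, hpq, hN⟩ := card_eq_two.1 ((G.card_neighborFinset_eq_degree v).trans h2)
      have e1 := hφ.sum v
      have hp : G.Adj v p := by
        rw [← SimpleGraph.mem_neighborFinset, hN]
        simp
      have hne := hφ.ne v p hp
      rw [hN, sum_insert (by simp [hpq]), sum_singleton] at e1 ⊢
      have e2 : φ v q = - φ v p := by linear_combination e1
      rcases val_cases _ hne with h1 | h1
      · rw [e2, h1]
        simp [h11]
      · rw [e2, h1]
        simp [h11]
    · rcases source_or_sink hφ h3 with hs | hs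
      · rw [if_pos hs, if_neg (fun h => not_source_and_sink hs h)]
        rw [sum_congr rfl (g := fun _ => (1 : ℤ)) fun w hw => ?_]
        · rw [sum_const, G.card_neighborFinset_eq_degree, h3]
          norm_num
        · rw [if_pos (hs.2 w (by simpa using hw))]
      · rw [if_pos hs, if_neg (fun h => not_source_and_sink h hs)]
        rw [sum_congr rfl (g := fun _ => (-1 : ℤ)) fun w hw => ?_]
        · rw [sum_const, G.card_neighborFinset_eq_degree, h3]
          norm_num
        · rw [if_neg]
          rw [hs.2 w (by simpa using hw)]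
          exact h11
  rw [sum_congr rfl fun v _ => hv v, sum_sub_distrib, ← sum_filter, ← sum_filter, sum_const,
    sum_const] at h0
  rw [Fintype.card_subtype, Fintype.card_subtype]
  simp only [nsmul_eq_mul] at h0
  omega

end Pool.Agent.Helper37.OB
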