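import Pool.Agent.Helper37.OB.Surj

/-!
# The colouring
-/

set_option autoImplicit false
set_option linter.unusedSectionVars false

namespace Pool.Agent.Helper37.OB

open Finset

variable {V : Type*} [Fintype V] [DecidableEq V] {G : SimpleGraph V} [DecidableRel G.Adj]
  {φ : V → V → ZMod 3}

theorem exists_delta (h2 : ∃ u v, u ≠ v ∧ G.degree u = 2 ∧ G.degree v = 2) :
    ∃ δ : V → ZMod 3, (∀ v, G.degree v = 2 → δ v ≠ 0) ∧ (∀ v, G.degree v ≠ 2 → δ v = 0) ∧
      ∑ v, δ v = 0 := by
  classical
  obtain ⟨p, q, hpq, hp, hq⟩ := h2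
  set D := univ.filter fun v => G.degree v = 2 with hD
  have hk : 2 ≤ D.card := by
    have : ({p, q} : Finset V) ⊆ D := by
      intro v hv
      rw [mem_insert, mem_singleton] at hv
      rw [hD, mem_filter]
      rcases hv with rfl | rfl
      · exact ⟨mem_univ _, hp⟩
      · exact ⟨mem_univ _, hq⟩
    calc 2 = ({p, q} : Finset V).card := (card_pair hpq).symm
      _ ≤ D.card := card_le_card this
  obtain ⟨P, hPD, hP⟩ := exists_subset_card_eq (show (2 * D.card) % 3 ≤ D.card by omega)
  refine ⟨fun v => (if v ∈ P then 2 else 0) + (if v ∈ D then -1 else 0), ?_, ?_, ?_⟩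
  · intro v hv
    have hvD : v ∈ D := by
      rw [hD, mem_filter]
      exact ⟨mem_univ _, hv⟩
    by_cases hvP : v ∈ P
    · simp only [hvP, hvD, if_true]
      decide
    · simp only [hvP, hvD, if_true, if_false]
      decide
  · intro v hv
    have hvD : v ∉ D := by
      rw [hD, mem_filter]
      exact fun h => hv h.2
    have hvP : v ∉ P := fun h => hvD (hPD h)
    simp only [hvP, hvD, if_false, add_zero]
  · rw [sum_add_distrib, ← sum_filter, ← sum_filter, sum_const, sum_const]
    have e1 : (univ.filter fun v => v ∈ P) = P := by ext; simp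
    have e2 : (univ.filter fun v => v ∈ D) = D := by ext; simp
    rw [e1, e2, hP, nsmul_eq_mul, nsmul_eq_mul]
    have e3 : (((2 * D.card) % 3 : ℕ) : ZMod 3) = ((2 * D.card : ℕ) : ZMod 3) := by
      rw [ZMod.natCast_mod]
    rw [e3]
    push_cast
    have h3' : (3 : ZMod 3) = 0 := by decide
    linear_combination (D.card : ZMod 3) * h3'

theorem distinct_of_sum : ∀ x y z : ZMod 3, x + y + z = 0 → x ≠ y → x ≠ z ∧ y ≠ z := by decide

theorem dv_add_sum {ι : Type*} [Fintype ι] (c0 : Sym2 V → ZMod 3) (f : ι → Sym2 V → ZMod 3)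
    (v : ι → ZMod 3) (u : V) :
    dv G φ (fun e => c0 e + ∑ x, v x * f x e) u = dv G φ c0 u + ∑ x, v x * dv G φ (f x) u := by
  unfold dv
  simp only [mul_add, sum_add_distrib, mul_sum]
  congr 1
  rw [sum_comm]
  exact sum_congr rfl fun x _ => sum_congr rfl fun w _ => by ring

theorem main (hφ : NZFlow G φ) (hdeg : ∀ v, G.degree v = 2 ∨ G.degree v = 3)
    (H : RankSink G φ) (h2 : ∃ u v, u ≠ v ∧ G.degree u = 2 ∧ G.degree v = 2) :
    ∃ c : Sym2 V → ZMod 3, ∀ u v w, G.Adj u v → G.Adj u w → v ≠ w → c s(u, v) ≠ c s(u, w) := by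
  classical
  obtain ⟨δ, hδ2, hδ3, hδ⟩ := exists_delta h2
  have hch : ∀ v, ∃ p : V × V, G.degree v = 3 → G.Adj v p.1 ∧ G.Adj v p.2 ∧ p.1 ≠ p.2 := by
    intro v
    by_cases h : G.degree v = 3
    · obtain ⟨a, b, d, hab, _, _, hN⟩ := nbr3 h
      refine ⟨(a, b), fun _ => ⟨?_, ?_, hab⟩⟩
      · rw [← SimpleGraph.mem_neighborFinset, hN]
        simp
      · rw [← SimpleGraph.mem_neighborFinset, hN]
        simp
    · exact ⟨(v, v), fun h' => absurd h' h⟩
  choose ab hab' using hch
  set a : V → V := fun v => (ab v).1 with ha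
  set b : V → V := fun v => (ab v).2 with hb
  have hab : ∀ v, G.degree v = 3 → G.Adj v (a v) ∧ G.Adj v (b v) ∧ a v ≠ b v := hab'
  obtain ⟨c0, hc0, -⟩ := surj hφ hdeg a b hab H δ hδ 0
  have hex := fun x : {v // Source G φ v} =>
    surj hφ hdeg a b hab H 0 (by simp) (Pi.single x (1 : ZMod 3))
  choose f hf hfs using hex
  let A : Matrix {v // Sink G φ v} {v // Source G φ v} (ZMod 3) :=
    fun y x => f x s(y.1, b y.1) - f x s(y.1, a y.1)
  have hA : A.transpose * A = 1 := by
    ext x x'
    rw [Matrix.mul_apply, Matrix.one_apply]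
    have h1 := isotropy hφ hdeg a b hab (f x) (f x') (hf x) (hf x')
    rw [sum_subtype (univ.filter (Sink G φ)) (p := Sink G φ) (by simp),
      sum_subtype (univ.filter (Source G φ)) (p := Source G φ) (by simp)] at h1
    have h2' : (∑ y : {v // Sink G φ v}, A.transpose x y * A y x') =
        ∑ y : {v // Sink G φ v}, (f x s(y.1, b y.1) - f x s(y.1, a y.1)) *
          (f x' s(y.1, b y.1) - f x' s(y.1, a y.1)) := rfl
    rw [h2', h1]
    simp only [hfs]
    rw [sum_eq_single x]
    · rw [Pi.single_eq_same, one_mul, Pi.single_apply]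
    · intro z _ hz
      rw [Pi.single_eq_of_ne hz, zero_mul]
    · intro h
      exact absurd (mem_univ _) h
  obtain ⟨v, hv1, hv2⟩ := exists_avoid (card_source hφ hdeg) A hA
    (fun y => - (c0 s(y.1, b y.1) - c0 s(y.1, a y.1)))
    (fun x => - (c0 s(x.1, b x.1) - c0 s(x.1, a x.1)))
  set c : Sym2 V → ZMod 3 := fun e => c0 e + ∑ x, v x * f x e with hc
  have hdc : ∀ u, dv G φ c u = δ u := by
    intro u
    rw [hc, dv_add_sum, hc0]
    simp only [hf, Pi.zero_apply, mul_zero, sum_const_zero, add_zero]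
  have hsc : ∀ u, c s(u, b u) - c s(u, a u) = (c0 s(u, b u) - c0 s(u, a u)) +
      ∑ x, v x * (f x s(u, b u) - f x s(u, a u)) := by
    intro u
    simp only [hc, mul_sub, sum_sub_distrib]
    ring
  have hne : ∀ u, G.degree u = 3 → c s(u, a u) ≠ c s(u, b u) := by
    intro u hu h
    have h0 : c s(u, b u) - c s(u, a u) = 0 := by rw [h, sub_self]
    rw [hsc u] at h0
    rcases source_or_sink hφ hu with hs | hs
    · apply hv1 ⟨u, hs⟩
      have e1 : ∑ x, v x * (f x s(u, b u) - f x s(u, a u)) = v ⟨u, hs⟩ := by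
        rw [sum_eq_single ⟨u, hs⟩]
        · rw [hfs ⟨u, hs⟩ ⟨u, hs⟩, Pi.single_eq_same, mul_one]
        · intro x _ hx
          rw [hfs x ⟨u, hs⟩, Pi.single_eq_of_ne hx.symm, mul_zero]
        · intro h
          exact absurd (mem_univ _) h
      rw [e1] at h0
      linear_combination h0
    · apply hv2 ⟨u, hs⟩
      have e1 : A.mulVec v ⟨u, hs⟩ = ∑ x, v x * (f x s(u, b u) - f x s(u, a u)) := by
        rw [Matrix.mulVec, dotProduct]
        exact sum_congr rfl fun x _ => mul_comm _ _
      rw [e1]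
      linear_combination h0
  refine ⟨c, fun u p q hp hq hpq hcc => ?_⟩
  rcases hdeg u with h2u | h3u
  · have hN : G.neighborFinset u = {p, q} := by
      symm
      apply eq_of_subset_of_card_le
      · intro w hw
        rw [mem_insert, mem_singleton] at hw
        rcases hw with rfl | rfl <;> simpa
      · rw [G.card_neighborFinset_eq_degree, h2u, card_pair hpq]
    have e1 := hdc u
    have e2 := hφ.sum u
    unfold dv at e1
    rw [hN, sum_insert (by simp [hpq]), sum_singleton] at e1 e2
    rw [← hcc] at e1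
    apply hδ2 u h2u
    rw [← e1]
    linear_combination (c s(u, p)) * e2
  · obtain ⟨h1, h2', h4⟩ := hab u h3u
    obtain ⟨d, had, hbd, hN⟩ := nbr3' h3u h1 h2' h4
    have hd : G.Adj u d := by
      rw [← SimpleGraph.mem_neighborFinset, hN]
      simp
    have e1 := hdc u
    rw [hδ3 u (by omega)] at e1
    unfold dv at e1
    rw [sum3 h4 had hbd hN] at e1
    have e2 : c s(u, a u) + c s(u, b u) + c s(u, d) = 0 := by
      rcases source_or_sink hφ h3u with hs | hs
      · rw [hs.2 _ h1, hs.2 _ h2', hs.2 _ hd] at e1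
        linear_combination e1
      · rw [hs.2 _ h1, hs.2 _ h2', hs.2 _ hd] at e1
        linear_combination - e1
    obtain ⟨e3, e4⟩ := distinct_of_sum _ _ _ e2 (hne u h3u)
    have e5 := hne u h3u
    have hmem : ∀ w, G.Adj u w → w = a u ∨ w = b u ∨ w = d := by
      intro w hw
      have : w ∈ G.neighborFinset u := by simpa using hw
      rw [hN] at this
      simpa using this
    rcases hmem p hp with rfl | rfl | rfl <;> rcases hmem q hq with rfl | rfl | rfl
    · exact hpq rfl
    · exact e5 hcc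
    · exact e3 hcc
    · exact e5 hcc.symm
    · exact hpq rfl
    · exact e4 hcc
    · exact e3 hcc.symm
    · exact e4 hcc.symm
    · exact hpq rfl

end Pool.Agent.Helper37.OB
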