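import Mathlib

/-!
# Orthogonal matrices over the field with three elements

Let `A` be an orthogonal matrix over `ZMod 3`. Then for all right hand sides `τ`, `σ` there is a vector `v` with `v i ≠ σ i` and `(A v) j ≠ τ j` for all
`i`, `j`. The proof computes the sum of the products of all the coordinates of `v` and of `A v`, which up to the sign does not change under the row operations
`1 + u uᵀ` with `u` of weight four.
-/

set_option autoImplicit false
set_option linter.unusedSectionVars false

namespace Pool.Agent.Helper37.OB

open Finset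

variable {ι κ : Type*} [Fintype ι] [DecidableEq ι] [Fintype κ] [DecidableEq κ]

/-- Affine forms on the space of functions from `ι` to `ZMod 3`. -/
def IsAff (g : (ι → ZMod 3) → ZMod 3) : Prop :=
  ∃ (a : ι → ZMod 3) (c : ZMod 3), ∀ v, g v = ∑ i, a i * v i + c

/-- A product of fewer than `2 n` affine forms has the sum zero. -/
theorem sum_prod_aff {β : Type*} (s : Finset β) (g : β → (ι → ZMod 3) → ZMod 3)
    (hg : ∀ b ∈ s, IsAff (g b)) (hs : s.card < 2 * Fintype.card ι) :
    ∑ v, ∏ b ∈ s, g b v = 0 := by
  classical
  have h : ∀ b, ∃ p : MvPolynomial ι (ZMod 3), p.totalDegree ≤ 1 ∧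
      (b ∈ s → ∀ v, g b v = MvPolynomial.eval v p) := by
    intro b
    by_cases hb : b ∈ s
    · obtain ⟨a, c, h⟩ := hg b hb
      refine ⟨∑ i, MvPolynomial.C (a i) * MvPolynomial.X i + MvPolynomial.C c, ?_, ?_⟩
      · refine (MvPolynomial.totalDegree_add _ _).trans (max_le ?_ (by simp))
        refine MvPolynomial.totalDegree_finsetSum_le fun i _ => ?_
        refine (MvPolynomial.totalDegree_mul _ _).trans ?_
        simp
      · intro _ v
        rw [h v]
        simp
    · exact ⟨0, by simp, fun h => absurd h hb⟩
  choose p hp hv using h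
  have h1 : ∀ v, ∏ b ∈ s, g b v = MvPolynomial.eval v (∏ b ∈ s, p b) := by
    intro v
    rw [map_prod]
    exact prod_congr rfl fun b hb => hv b hb v
  simp_rw [h1]
  apply MvPolynomial.sum_eval_eq_zero
  rw [ZMod.card]
  calc (∏ b ∈ s, p b).totalDegree ≤ ∑ b ∈ s, (p b).totalDegree :=
        MvPolynomial.totalDegree_finsetProd _ _
    _ ≤ ∑ b ∈ s, 1 := sum_le_sum fun b _ => hp b
    _ = s.card := by simp
    _ < _ := by simpa using hs

theorem isAff_coord (i : ι) : IsAff (fun v : ι → ZMod 3 => v i) := by
  refine ⟨Pi.single i 1, 0, fun v => ?_⟩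
  simp [Pi.single_apply]

theorem isAff_mulVec (A : Matrix κ ι (ZMod 3)) (j : κ) :
    IsAff (fun v : ι → ZMod 3 => A.mulVec v j) := by
  refine ⟨A j, 0, fun v => ?_⟩
  simp [Matrix.mulVec, dotProduct]

theorem IsAff.sub_const {g : (ι → ZMod 3) → ZMod 3} (hg : IsAff g) (t : ZMod 3) :
    IsAff (fun v => g v - t) := by
  obtain ⟨a, c, h⟩ := hg
  exact ⟨a, c - t, fun v => by simp only [h v]; ring⟩

/-- Affine forms may be shifted by constants in a product of `2 n` of them without changing the sum. -/
theorem sum_prod_shift {β : Type*} [Fintype β] [DecidableEq β] (g : β → (ι → ZMod 3) → ZMod 3)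
    (hg : ∀ b, IsAff (g b)) (hs : Fintype.card β ≤ 2 * Fintype.card ι) (t : β → ZMod 3) :
    ∑ v, ∏ b, (g b v - t b) = ∑ v, ∏ b, g b v := by
  have key : ∀ s : Finset β, ∑ v, ∏ b, (g b v - if b ∈ s then t b else 0) = ∑ v, ∏ b, g b v := by
    intro s
    induction s using Finset.induction_on with
    | empty => simp
    | insert a s ha ih =>
      rw [← ih, ← sub_eq_zero, ← sum_sub_distrib]
      have h1 : ∀ v, (∏ b, (g b v - if b ∈ insert a s then t b else 0)) -
          ∏ b, (g b v - if b ∈ s then t b else 0) =
          - t a * ∏ b ∈ univ.erase a, (g b v - if b ∈ s then t b else 0) := by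
        intro v
        rw [← mul_prod_erase univ _ (mem_univ a), ← mul_prod_erase univ (fun b => g b v - if b ∈ s then t b else 0) (mem_univ a)]
        have h2 : ∏ b ∈ univ.erase a, (g b v - if b ∈ insert a s then t b else 0) =
            ∏ b ∈ univ.erase a, (g b v - if b ∈ s then t b else 0) := by
          refine prod_congr rfl fun b hb => ?_
          have hb' : b ≠ a := (mem_erase.1 hb).1
          simp [mem_insert, hb']
        rw [h2]
        simp only [mem_insert, true_or, if_true, ha, if_false]
        ring
      rw [sum_congr rfl fun v _ => h1 v, ← mul_sum]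
      rw [sum_prod_aff (univ.erase a) (fun b v => g b v - if b ∈ s then t b else 0)
        (fun b _ => (hg b).sub_const _) ?_, mul_zero]
      rw [card_erase_of_mem (mem_univ a), card_univ]
      have : 0 < Fintype.card β := Fintype.card_pos_iff.2 ⟨a⟩
      omega
  simpa using key univ

/-- The sum over all vectors of the product of the coordinates of `v` and of `A v`. -/
def S (A : Matrix κ ι (ZMod 3)) : ZMod 3 := ∑ v : ι → ZMod 3, (∏ j, A.mulVec v j) * ∏ i, v i

/-- If the sum `S A` does not vanish, all systems of forbidden values can be avoided. -/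
theorem exists_of_S_ne_zero (hcard : Fintype.card κ = Fintype.card ι) (A : Matrix κ ι (ZMod 3))
    (hS : S A ≠ 0) (τ : κ → ZMod 3) (σ : ι → ZMod 3) :
    ∃ v : ι → ZMod 3, (∀ i, v i ≠ σ i) ∧ ∀ j, A.mulVec v j ≠ τ j := by
  classical
  have h := sum_prod_shift (β := κ ⊕ ι) (ι := ι)
    (Sum.elim (fun j v => A.mulVec v j) (fun i v => v i))
    (by
      rintro (j | i)
      · exact isAff_mulVec A j
      · exact isAff_coord i)
    (by rw [Fintype.card_sum]; omega) (Sum.elim τ σ)
  have h0 : (∑ v : ι → ZMod 3, ∏ b : κ ⊕ ι,
      Sum.elim (fun j (v : ι → ZMod 3) => A.mulVec v j) (fun i v => v i) b v) = S A := by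
    unfold S
    refine sum_congr rfl fun v _ => ?_
    rw [Fintype.prod_sum_type]
    rfl
  rw [h0] at h
  rw [← h] at hS
  obtain ⟨v, _, hv⟩ := exists_ne_zero_of_sum_ne_zero hS
  rw [prod_ne_zero_iff] at hv
  refine ⟨v, fun i hi => ?_, fun j hj => ?_⟩
  · exact hv (Sum.inr i) (mem_univ _) (by simp [hi])
  · exact hv (Sum.inl j) (mem_univ _) (by simp [hj])

theorem sq_eq_one_of_ne_zero : ∀ x : ZMod 3, x ≠ 0 → x * x = 1 := by decide

private theorem four_aux : ∀ a b c d : ZMod 3,
    (a + (a + b + c + d)) * (b + (a + b + c + d)) * (c + (a + b + c + d)) * (d + (a + b + c + d)) =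
      - (a * b * c * d) + ((a * a + b * b + c * c + d * d) +
        (a * a + b * b + c * c + d * d) * (a * a + b * b + c * c + d * d)) := by decide

theorem four_identity (K : Finset κ) (hK : K.card = 4) (z : κ → ZMod 3) :
    ∏ j ∈ K, (z j + ∑ l ∈ K, z l) =
      - (∏ j ∈ K, z j) + ((∑ j ∈ K, z j * z j) + (∑ j ∈ K, z j * z j) * ∑ j ∈ K, z j * z j) := by
  have e := K.equivFinOfCardEq hK
  have hp : ∀ f : κ → ZMod 3, ∏ j ∈ K, f j = ∏ x : Fin 4, f (e.symm x) := by
    intro f
    rw [← prod_coe_sort, ← Equiv.prod_comp e.symm]
  have hs : ∀ f : κ → ZMod 3, ∑ j ∈ K, f j = ∑ x : Fin 4, f (e.symm x) := by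
    intro f
    rw [← sum_coe_sort, ← Equiv.sum_comp e.symm]
  rw [hp, hp, hs, hs, Fin.prod_univ_four, Fin.prod_univ_four, Fin.sum_univ_four, Fin.sum_univ_four]
  exact four_aux _ _ _ _

/-- The row operation `1 + u uᵀ`. -/
def rowOp (u : κ → ZMod 3) (A : Matrix κ ι (ZMod 3)) : Matrix κ ι (ZMod 3) :=
  fun j i => A j i + u j * ∑ l, u l * A l i

theorem rowOp_mulVec (u : κ → ZMod 3) (A : Matrix κ ι (ZMod 3)) (v : ι → ZMod 3) (j : κ) :
    (rowOp u A).mulVec v j = A.mulVec v j + u j * ∑ l, u l * A.mulVec v l := by
  simp only [Matrix.mulVec, dotProduct, rowOp, add_mul, sum_add_distrib, mul_sum, sum_mul]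
  rw [sum_comm]
  simp only [mul_assoc]

theorem orth_apply {A : Matrix κ ι (ZMod 3)} (hA : A.transpose * A = 1) (i i' : ι) :
    ∑ j, A j i * A j i' = if i = i' then 1 else 0 := by
  have := congrFun (congrFun hA i) i'
  simpa [Matrix.mul_apply, Matrix.one_apply] using this

theorem orth_rowOp (u : κ → ZMod 3) (hu : ∑ j, u j * u j = 1) {A : Matrix κ ι (ZMod 3)}
    (hA : A.transpose * A = 1) : (rowOp u A).transpose * rowOp u A = 1 := by
  ext i i'
  have h := orth_apply hA i i'
  rw [Matrix.mul_apply, Matrix.one_apply, ← h]
  simp only [Matrix.transpose_apply, rowOp]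
  set a := ∑ l, u l * A l i with ha
  set b := ∑ l, u l * A l i' with hb
  have h1 : ∀ j, (A j i + u j * a) * (A j i' + u j * b) =
      A j i * A j i' + b * (u j * A j i) + a * (u j * A j i') + a * b * (u j * u j) := by
    intro j; ring
  rw [sum_congr rfl fun j _ => h1 j, sum_add_distrib, sum_add_distrib, sum_add_distrib,
    ← mul_sum, ← mul_sum, ← mul_sum, ← ha, ← hb, hu]
  have h3 : (3 : ZMod 3) = 0 := by decide
  linear_combination (a * b) * h3

theorem orth_isometry {A : Matrix κ ι (ZMod 3)} (hA : A.transpose * A = 1) (v : ι → ZMod 3) :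
    ∑ j, A.mulVec v j * A.mulVec v j = ∑ i, v i * v i := by
  have h : dotProduct (A.mulVec v) (A.mulVec v) = dotProduct v v := by
    rw [Matrix.dotProduct_mulVec, ← Matrix.mulVec_transpose, Matrix.mulVec_mulVec, hA,
      Matrix.one_mulVec]
  exact h

theorem S_rowOp (hcard : Fintype.card κ = Fintype.card ι) (u : κ → ZMod 3) (K : Finset κ)
    (hK : K.card = 4) (huK : ∀ j, u j ≠ 0 ↔ j ∈ K) {A : Matrix κ ι (ZMod 3)}
    (hA : A.transpose * A = 1) : S (rowOp u A) = - S A := by
  classical
  set P : (ι → ZMod 3) → ZMod 3 := fun v => (∏ j ∈ Kᶜ, A.mulVec v j) * ∏ i, v i with hP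
  have hPsum : ∑ v, P v = 0 := by
    have h := sum_prod_aff (ι := ι) ((Kᶜ).disjSum (univ : Finset ι))
      (Sum.elim (fun j v => A.mulVec v j) (fun i v => v i))
      (by
        rintro (j | i) _
        · exact isAff_mulVec A j
        · exact isAff_coord i)
      (by
        rw [card_disjSum, card_compl, card_univ, hK, hcard]
        have : 4 ≤ Fintype.card κ := hK ▸ card_le_univ K
        omega)
    rw [← h]
    refine sum_congr rfl fun v _ => ?_
    rw [prod_disjSum]
    rfl
  have hterm : ∀ v : ι → ZMod 3, (∏ j, (rowOp u A).mulVec v j) * ∏ i, v i =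
      - ((∏ j, A.mulVec v j) * ∏ i, v i) + 2 * (∏ j ∈ K, u j) * P v := by
    intro v
    set y : κ → ZMod 3 := A.mulVec v with hy
    have hU : ∑ l, u l * y l = ∑ l ∈ K, u l * y l := by
      symm
      refine sum_subset (subset_univ K) fun l _ hl => ?_
      have : u l = 0 := by
        by_contra h
        exact hl ((huK l).1 h)
      rw [this, zero_mul]
    set s : ZMod 3 := ∑ j ∈ K, y j * y j with hs
    have huu : ∀ j ∈ K, u j * u j = 1 := fun j hj => sq_eq_one_of_ne_zero _ ((huK j).2 hj)
    have h1 : ∏ j, (rowOp u A).mulVec v j =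
        (∏ j ∈ K, (y j + u j * ∑ l ∈ K, u l * y l)) * ∏ j ∈ Kᶜ, y j := by
      rw [← prod_mul_prod_compl K]
      congr 1
      · refine prod_congr rfl fun j _ => ?_
        rw [rowOp_mulVec, ← hy, hU]
      · refine prod_congr rfl fun j hj => ?_
        have : u j = 0 := by
          by_contra h
          exact (mem_compl.1 hj) ((huK j).1 h)
        rw [rowOp_mulVec, this, zero_mul, add_zero]
    have h2 : ∏ j ∈ K, (y j + u j * ∑ l ∈ K, u l * y l) =
        (∏ j ∈ K, u j) * ∏ j ∈ K, (u j * y j + ∑ l ∈ K, u l * y l) := by
      rw [← prod_mul_distrib]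
      refine prod_congr rfl fun j hj => ?_
      have := huu j hj
      linear_combination (- y j) * this
    have h3 := four_identity K hK (fun j => u j * y j)
    have h4 : ∑ j ∈ K, (u j * y j) * (u j * y j) = s := by
      refine sum_congr rfl fun j hj => ?_
      have := huu j hj
      linear_combination (y j * y j) * this
    have h5 : (∏ j ∈ K, u j) * ∏ j ∈ K, (u j * y j) = ∏ j ∈ K, y j := by
      rw [← prod_mul_distrib]
      refine prod_congr rfl fun j hj => ?_
      have := huu j hj
      linear_combination (y j) * this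
    simp only [h4] at h3
    have h6 : (s + s * s) * P v = 2 * P v := by
      by_cases hPv : P v = 0
      · rw [hPv]; simp
      · have hPv' : (∏ j ∈ Kᶜ, y j) * ∏ i, v i ≠ 0 := hPv
        have hy0 : ∀ j ∈ Kᶜ, y j ≠ 0 := prod_ne_zero_iff.1 (left_ne_zero_of_mul hPv')
        have hv0 : ∀ i ∈ univ, v i ≠ 0 := prod_ne_zero_iff.1 (right_ne_zero_of_mul hPv')
        have e1 : ∑ i, v i * v i = (Fintype.card ι : ZMod 3) := by
          rw [sum_congr rfl fun i hi => sq_eq_one_of_ne_zero _ (hv0 i hi)]
          simp
        have e2 : ∑ j ∈ Kᶜ, y j * y j = ((Kᶜ).card : ZMod 3) := by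
          rw [sum_congr rfl fun j hj => sq_eq_one_of_ne_zero _ (hy0 j hj)]
          simp
        have e3 := orth_isometry hA v
        rw [← hy, e1, ← sum_add_sum_compl K, e2] at e3
        have e4 : ((K.card : ℕ) : ZMod 3) + ((Kᶜ).card : ZMod 3) = (Fintype.card κ : ZMod 3) := by
          rw [← Nat.cast_add, card_add_card_compl]
        rw [hK, hcard] at e4
        have e5 : s = 1 := by
          have h3' : (4 : ZMod 3) = 1 := by decide
          have e6 : s + ((Kᶜ).card : ZMod 3) = (Fintype.card ι : ZMod 3) := e3
          push_cast at e4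
          rw [h3'] at e4
          linear_combination e6 - e4
        rw [e5]
        ring
    rw [h1, h2, h3]
    have h7 : (∏ j, y j) = (∏ j ∈ K, y j) * ∏ j ∈ Kᶜ, y j := (prod_mul_prod_compl K _).symm
    rw [h7, ← h5]
    have h8 : P v = (∏ j ∈ Kᶜ, y j) * ∏ i, v i := rfl
    linear_combination (∏ j ∈ K, u j) * h6 - (∏ j ∈ K, u j) * (s + s * s) * h8
  unfold S
  rw [sum_congr rfl fun v _ => hterm v, sum_add_distrib, ← mul_sum, hPsum, mul_zero, add_zero,
    sum_neg_distrib]

/-- The support of a column. -/
def supp (A : Matrix κ ι (ZMod 3)) (i : ι) : Finset κ := univ.filter fun j => A j i ≠ 0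

theorem mem_supp {A : Matrix κ ι (ZMod 3)} {i : ι} {j : κ} : j ∈ supp A i ↔ A j i ≠ 0 := by
  simp [supp]

theorem card_supp {A : Matrix κ ι (ZMod 3)} (hA : A.transpose * A = 1) (i : ι) :
    ((supp A i).card : ZMod 3) = 1 := by
  have h := orth_apply hA i i
  rw [if_pos rfl] at h
  rw [← h, ← sum_subset (subset_univ (supp A i))]
  · rw [sum_congr rfl fun j hj => sq_eq_one_of_ne_zero _ (mem_supp.1 hj)]
    simp
  · intro j _ hj
    have : A j i = 0 := by
      by_contra h
      exact hj (mem_supp.2 h)
    rw [this, zero_mul]

/-- The base case: signed permutation matrices. -/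
theorem S_perm_ne_zero (hcard : Fintype.card κ = Fintype.card ι) {A : Matrix κ ι (ZMod 3)}
    (hA : A.transpose * A = 1) (h1 : ∀ i, (supp A i).card = 1) : S A ≠ 0 := by
  classical
  have h2 : ∀ i, ∃ j, supp A i = {j} := fun i => card_eq_one.1 (h1 i)
  choose π hπ using h2
  have hne : ∀ i, A (π i) i ≠ 0 := fun i => mem_supp.1 (by rw [hπ i]; exact mem_singleton_self _)
  have hz : ∀ i j, j ≠ π i → A j i = 0 := by
    intro i j hj
    by_contra h
    have := mem_supp.2 h
    rw [hπ i, mem_singleton] at this
    exact hj this
  have hinj : Function.Injective π := by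
    intro i i' hii
    by_contra hne'
    have h := orth_apply hA i i'
    rw [if_neg hne', sum_eq_single (π i) (fun j _ hj => by rw [hz i j hj, zero_mul])
      (fun h => absurd (mem_univ _) h)] at h
    rcases mul_eq_zero.1 h with h | h
    · exact hne i h
    · rw [hii] at h
      exact hne i' h
  have hbij : Function.Bijective π :=
    (Fintype.bijective_iff_injective_and_card π).2 ⟨hinj, hcard.symm⟩
  have hAv : ∀ (v : ι → ZMod 3) i, A.mulVec v (π i) = A (π i) i * v i := by
    intro v i
    rw [Matrix.mulVec, dotProduct]
    refine sum_eq_single i (fun i' _ hi' => ?_) (fun h => absurd (mem_univ _) h)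
    rw [hz i' (π i) (fun h => hi' (hinj h).symm), zero_mul]
  have hprod : ∀ v : ι → ZMod 3, (∏ j, A.mulVec v j) * ∏ i, v i =
      (∏ i, A (π i) i) * ∏ i, (v i * v i) := by
    intro v
    rw [← Function.Bijective.prod_comp hbij (fun j => A.mulVec v j)]
    rw [prod_congr rfl fun i _ => hAv v i, prod_mul_distrib, prod_mul_distrib]
    ring
  have hsum : (∑ v : ι → ZMod 3, ∏ i, (v i * v i)) = ∏ _i : ι, (2 : ZMod 3) := by
    have h3 : (∑ x : ZMod 3, x * x) = 2 := by decide
    rw [prod_congr rfl fun i _ => h3.symm, prod_univ_sum]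
    rfl
  unfold S
  rw [sum_congr rfl fun v _ => hprod v, ← mul_sum, hsum]
  refine mul_ne_zero (prod_ne_zero_iff.2 fun i _ => hne i) (prod_ne_zero_iff.2 fun i _ => ?_)
  decide

theorem S_ne_zero_aux (hcard : Fintype.card κ = Fintype.card ι) (T : Finset ι) :
    ∀ A : Matrix κ ι (ZMod 3), A.transpose * A = 1 → (∀ i, i ∉ T → (supp A i).card = 1) →
      S A ≠ 0 := by
  classical
  induction T using Finset.induction_on with
  | empty =>
    intro A hA h
    exact S_perm_ne_zero hcard hA fun i => h i (notMem_empty i)
  | insert i0 T hi0 ih =>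
    have inner : ∀ (w : ℕ) (A : Matrix κ ι (ZMod 3)), A.transpose * A = 1 →
        (∀ i, i ∉ insert i0 T → (supp A i).card = 1) → (supp A i0).card = w → S A ≠ 0 := by
      intro w
      induction w using Nat.strong_induction_on with
      | _ w ihw =>
        intro A hA hT hw
        have hmod : ((w : ℕ) : ZMod 3) = ((1 : ℕ) : ZMod 3) := by
          rw [← hw, card_supp hA i0, Nat.cast_one]
        have hmod' : w % 3 = 1 % 3 := (ZMod.natCast_eq_natCast_iff' w 1 3).1 hmod
        by_cases hw1 : w = 1
        · apply ih A hA
          intro i hi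
          by_cases h : i = i0
          · rw [h, hw, hw1]
          · exact hT i (by simp [h, hi])
        · have hw4 : 4 ≤ (supp A i0).card := by omega
          obtain ⟨K, hKs, hK4⟩ := exists_subset_card_eq hw4
          obtain ⟨p, hp⟩ : K.Nonempty := by rw [← card_pos]; omega
          have hKA : ∀ j ∈ K, A j i0 ≠ 0 := fun j hj => mem_supp.1 (hKs hj)
          set u : κ → ZMod 3 := fun j =>
            if j ∈ K then (if j = p then - A j i0 else A j i0) else 0 with hudef
          have huin : ∀ j, j ∈ K → u j = if j = p then - A j i0 else A j i0 := by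
            intro j hj
            simp [hudef, hj]
          have huout : ∀ j, j ∉ K → u j = 0 := by
            intro j hj
            simp [hudef, hj]
          have huK : ∀ j, u j ≠ 0 ↔ j ∈ K := by
            intro j
            constructor
            · intro h
              by_contra hj
              exact h (huout j hj)
            · intro hj
              rw [huin j hj]
              split_ifs
              · exact neg_ne_zero.2 (hKA j hj)
              · exact hKA j hj
          have hu : ∑ j, u j * u j = 1 := by
            rw [← sum_subset (subset_univ K) (fun j _ hj => by rw [huout j hj, zero_mul]),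
              sum_congr rfl fun j hj => sq_eq_one_of_ne_zero _ ((huK j).2 hj)]
            rw [sum_const, hK4]
            decide
          have hc : ∑ l, u l * A l i0 = -1 := by
            rw [← sum_subset (subset_univ K) (fun j _ hj => by rw [huout j hj, zero_mul])]
            have e : ∀ l ∈ K, u l * A l i0 = 1 + (if l = p then -2 else 0) := by
              intro l hl
              have hsq := sq_eq_one_of_ne_zero _ (hKA l hl)
              rw [huin l hl]
              split_ifs
              · linear_combination - hsq
              · linear_combination hsq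
            rw [sum_congr rfl e, sum_add_distrib, sum_ite_eq' K p, if_pos hp, sum_const, hK4]
            decide
          have hS := S_rowOp hcard u K hK4 huK hA
          have hsupp0 : supp (rowOp u A) i0 = insert p (supp A i0 \ K) := by
            ext j
            rw [mem_supp, rowOp, hc, mem_insert, mem_sdiff, mem_supp]
            by_cases hj : j ∈ K
            · rw [huin j hj]
              by_cases hjp : j = p
              · simp only [hjp, if_true, true_or, iff_true]
                have := hKA p hp
                intro h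
                apply this
                have h3 : (3 : ZMod 3) = 0 := by decide
                linear_combination (A p i0) * h3 - h
              · simp only [hjp, if_false, false_or, hj, not_true_eq_false, and_false, iff_false,
                  not_not]
                ring
            · have hjp : j ≠ p := fun h => hj (h ▸ hp)
              simp [huout j hj, hj, hjp]
          have hcard0 : (supp (rowOp u A) i0).card = w - 3 := by
            rw [hsupp0, card_insert_of_notMem (by simp [hp]), card_sdiff_of_subset hKs, hK4, hw]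
            omega
          have hother : ∀ i, i ∉ insert i0 T → (supp (rowOp u A) i).card = 1 := by
            intro i hi
            obtain ⟨j1, hj1⟩ := card_eq_one.1 (hT i hi)
            have hii : i ≠ i0 := by
              rintro rfl
              exact hi (mem_insert_self _ _)
            have hA1 : A j1 i ≠ 0 := mem_supp.1 (by rw [hj1]; exact mem_singleton_self _)
            have hA0 : ∀ j, j ≠ j1 → A j i = 0 := by
              intro j hj
              by_contra h
              have := mem_supp.2 h
              rw [hj1, mem_singleton] at this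
              exact hj this
            have horth := orth_apply hA i i0
            rw [if_neg hii, sum_eq_single j1 (fun j _ hj => by rw [hA0 j hj, zero_mul])
              (fun h => absurd (mem_univ _) h)] at horth
            have hA10 : A j1 i0 = 0 := (mul_eq_zero.1 horth).resolve_left hA1
            have hj1K : j1 ∉ K := fun h => hKA j1 h hA10
            have hsum0 : ∑ l, u l * A l i = 0 := by
              refine sum_eq_zero fun l _ => ?_
              by_cases hl : l = j1
              · rw [hl, huout j1 hj1K, zero_mul]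
              · rw [hA0 l hl, mul_zero]
            have : supp (rowOp u A) i = supp A i := by
              ext j
              rw [mem_supp, mem_supp, rowOp, hsum0, mul_zero, add_zero]
            rw [this]
            exact hT i hi
          have hne := ihw (w - 3) (by omega) (rowOp u A) (orth_rowOp u hu hA) hother hcard0
          intro h
          apply hne
          rw [hS, h, neg_zero]
    intro A hA hT
    exact inner _ A hA hT rfl

theorem S_ne_zero (hcard : Fintype.card κ = Fintype.card ι) {A : Matrix κ ι (ZMod 3)}
    (hA : A.transpose * A = 1) : S A ≠ 0 :=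
  S_ne_zero_aux hcard univ A hA fun i hi => absurd (mem_univ i) hi

/-- Orthogonal matrices over `ZMod 3`: all systems of forbidden values can be avoided. -/
theorem exists_avoid (hcard : Fintype.card κ = Fintype.card ι) (A : Matrix κ ι (ZMod 3))
    (hA : A.transpose * A = 1) (τ : κ → ZMod 3) (σ : ι → ZMod 3) :
    ∃ v : ι → ZMod 3, (∀ i, v i ≠ σ i) ∧ ∀ j, A.mulVec v j ≠ τ j :=
  exists_of_S_ne_zero hcard A (S_ne_zero hcard hA) τ σ

end Pool.Agent.Helper37.OB
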