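import Pool.Agent.Helper37.OB.Flow

/-!
# Prescribed divergence and prescribed differences at the sources
-/

set_option autoImplicit false
set_option linter.unusedSectionVars false

namespace Pool.Agent.Helper37.OB

open Finset

variable {V : Type*} [Fintype V] [DecidableEq V]

/-- The hypothesis on the rank: a function on the edges which times `φ` is a flow and which is constant at every sink is constant. -/
def RankSink (G : SimpleGraph V) [DecidableRel G.Adj] (φ : V → V → ZMod 3) : Prop :=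
  ∀ f : Sym2 V → ZMod 3, (∀ v, dv G φ f v = 0) →
    (∀ v, Sink G φ v → ∀ w w', G.Adj v w → G.Adj v w' → f s(v, w) = f s(v, w')) →
    ∀ v w v' w', G.Adj v w → G.Adj v' w' → f s(v, w) = f s(v', w')

/-- The divergence together with the differences at the sources. -/
def T (G : SimpleGraph V) [DecidableRel G.Adj] (φ : V → V → ZMod 3) (a b : V → V) :
    (Sym2 V → ZMod 3) →ₗ[ZMod 3] (V ⊕ {v // Source G φ v} → ZMod 3) where
  toFun f := Sum.elim (fun v => dv G φ f v) (fun x => f s(x.1, b x.1) - f s(x.1, a x.1))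
  map_add' f f' := by
    funext j
    rcases j with v | x
    · simp only [Sum.elim_inl, Pi.add_apply, dv, mul_add, sum_add_distrib]
    · simp only [Sum.elim_inr, Pi.add_apply]
      ring
  map_smul' r f := by
    funext j
    rcases j with v | x
    · simp only [Sum.elim_inl, Pi.smul_apply, dv, smul_eq_mul, RingHom.id_apply, mul_sum]
      exact sum_congr rfl fun w _ => by ring
    · simp only [Sum.elim_inr, Pi.smul_apply, smul_eq_mul, RingHom.id_apply]
      ring

variable {G : SimpleGraph V} [DecidableRel G.Adj] {φ : V → V → ZMod 3}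

theorem dv_single_left {p q : V} (h : G.Adj p q) :
    dv G φ (Pi.single s(p, q) 1) p = φ p q := by
  unfold dv
  rw [sum_eq_single q]
  · simp
  · intro w _ hw
    have : s(p, w) ≠ s(p, q) := by
      intro h'
      rcases Sym2.eq_iff.1 h' with ⟨_, h2⟩ | ⟨h1, h2⟩
      · exact hw h2
      · exact hw (h2.trans h1)
    rw [Pi.single_eq_of_ne this, mul_zero]
  · intro h'
    exact absurd (by simpa using h) h'

theorem dv_single_right {p q : V} (h : G.Adj p q) :
    dv G φ (Pi.single s(p, q) 1) q = φ q p := by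
  rw [Sym2.eq_swap]
  exact dv_single_left h.symm

theorem dv_single_other {p q v : V} (hp : v ≠ p) (hq : v ≠ q) :
    dv G φ (Pi.single s(p, q) 1) v = 0 := by
  unfold dv
  refine sum_eq_zero fun w _ => ?_
  have : s(v, w) ≠ s(p, q) := by
    intro h'
    rcases Sym2.eq_iff.1 h' with ⟨h1, _⟩ | ⟨h1, _⟩
    · exact hp h1
    · exact hq h1
  rw [Pi.single_eq_of_ne this, mul_zero]

theorem surj (hφ : NZFlow G φ) (hdeg : ∀ v, G.degree v = 2 ∨ G.degree v = 3) (a b : V → V)
    (hab : ∀ v, G.degree v = 3 → G.Adj v (a v) ∧ G.Adj v (b v) ∧ a v ≠ b v)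
    (H : RankSink G φ)
    (δ : V → ZMod 3) (hδ : ∑ v, δ v = 0) (t : {v // Source G φ v} → ZMod 3) :
    ∃ f : Sym2 V → ZMod 3, (∀ v, dv G φ f v = δ v) ∧
      ∀ x : {v // Source G φ v}, f s(x.1, b x.1) - f s(x.1, a x.1) = t x := by
  classical
  have h11 : ¬ (-1 : ZMod 3) = 1 := by decide
  by_contra hcon
  have hnot : Sum.elim δ t ∉ LinearMap.range (T G φ a b) := by
    rintro ⟨f, hf⟩
    exact hcon ⟨f, fun v => congrFun hf (Sum.inl v), fun x => congrFun hf (Sum.inr x)⟩
  obtain ⟨g, hg, hg'⟩ := Submodule.exists_dual_map_eq_bot_of_notMem hnot inferInstance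
  have hgT : ∀ f, g (T G φ a b f) = 0 := by
    intro f
    have : g (T G φ a b f) ∈ Submodule.map g (LinearMap.range (T G φ a b)) :=
      Submodule.mem_map_of_mem ⟨f, rfl⟩
    rw [hg'] at this
    exact (Submodule.mem_bot _).1 this
  obtain ⟨μ, hμ⟩ : ∃ μ : V → ZMod 3, ∀ v, g (fun j => if Sum.inl v = j then 1 else 0) = μ v :=
    ⟨_, fun _ => rfl⟩
  obtain ⟨l, hl⟩ : ∃ l : {v // Source G φ v} → ZMod 3,
      ∀ x, g (fun j => if Sum.inr x = j then 1 else 0) = l x := ⟨_, fun _ => rfl⟩
  have hgh : ∀ h, g h = ∑ v, h (Sum.inl v) * μ v + ∑ x, h (Sum.inr x) * l x := by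
    intro h
    rw [LinearMap.pi_apply_eq_sum_univ g h, Fintype.sum_sum_type]
    simp only [hμ, hl, smul_eq_mul]
  have hrel : ∀ f : Sym2 V → ZMod 3, ∑ v, dv G φ f v * μ v +
      ∑ x : {v // Source G φ v}, (f s(x.1, b x.1) - f s(x.1, a x.1)) * l x = 0 := by
    intro f
    rw [← hgT f, hgh]
    rfl
  -- the relation at an edge
  have hdiv : ∀ p q, G.Adj p q → φ p q = 1 →
      ∑ v, dv G φ (Pi.single s(p, q) 1) v * μ v = μ p - μ q := by
    intro p q hpq h1
    rw [Fintype.sum_eq_add p q hpq.ne, dv_single_left hpq, dv_single_right hpq, hφ.anti p q, h1]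
    · ring
    · rintro v ⟨hvp, hvq⟩
      rw [dv_single_other hvp hvq, zero_mul]
  have hoff : ∀ p q, G.Adj p q → φ p q = 1 → ∀ x w, Source G φ x → G.Adj x w → x ≠ p →
      (Pi.single s(p, q) 1 : Sym2 V → ZMod 3) s(x, w) = 0 := by
    intro p q hpq h1 x w hx hxw hxp
    have : s(x, w) ≠ s(p, q) := by
      intro h'
      rcases Sym2.eq_iff.1 h' with ⟨h2, _⟩ | ⟨h2, h3⟩
      · exact hxp h2
      · have h4 := hx.2 w hxw
        rw [h2, h3, hφ.anti p q, h1] at h4
        exact h11 h4
    rw [Pi.single_eq_of_ne this]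
  have hR1 : ∀ p q, G.Adj p q → φ p q = 1 → ¬ Source G φ p → μ p = μ q := by
    intro p q hpq h1 hp
    have h2 := hrel (Pi.single s(p, q) 1)
    rw [hdiv p q hpq h1, sum_eq_zero, add_zero] at h2
    · exact sub_eq_zero.1 h2
    · intro x _
      have hxp : x.1 ≠ p := fun h => hp (h ▸ x.2)
      have hx := hab x.1 x.2.1
      rw [hoff p q hpq h1 x.1 _ x.2 hx.1 hxp, hoff p q hpq h1 x.1 _ x.2 hx.2.1 hxp]
      ring
  have hR2 : ∀ p q (hp : Source G φ p), G.Adj p q →
      μ p - μ q + ((if b p = q then 1 else 0) - (if a p = q then 1 else 0)) * l ⟨p, hp⟩ = 0 := by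
    intro p q hp hpq
    have h1 := hp.2 q hpq
    have h2 := hrel (Pi.single s(p, q) 1)
    rw [hdiv p q hpq h1, Fintype.sum_eq_single ⟨p, hp⟩] at h2
    · have e : ∀ w, (Pi.single s(p, q) 1 : Sym2 V → ZMod 3) s(p, w) = if w = q then 1 else 0 := by
        intro w
        rw [Pi.single_apply]
        by_cases hw : w = q
        · simp [hw]
        · have : s(p, w) ≠ s(p, q) := by
            intro h'
            rcases Sym2.eq_iff.1 h' with ⟨_, h3⟩ | ⟨h3, h4⟩
            · exact hw h3
            · exact hw (h4.trans h3)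
          rw [if_neg this, if_neg hw]
      simp only [e] at h2
      exact h2
    · intro x hx
      have hxp : x.1 ≠ p := fun h => hx (Subtype.ext h)
      have hx' := hab x.1 x.2.1
      rw [hoff p q hpq h1 x.1 _ x.2 hx'.1 hxp, hoff p q hpq h1 x.1 _ x.2 hx'.2.1 hxp]
      ring
  -- the function on the edges: the value at the head
  let f0 : Sym2 V → ZMod 3 := Sym2.lift ⟨fun v w => (if φ v w = 1 then μ w else 0) +
    (if φ w v = 1 then μ v else 0), fun v w => add_comm _ _⟩
  have hf1 : ∀ v w, φ v w = 1 → f0 s(v, w) = μ w := by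
    intro v w h
    have h' : φ w v = -1 := by rw [hφ.anti, h]
    change (if φ v w = 1 then μ w else 0) + (if φ w v = 1 then μ v else 0) = μ w
    rw [if_pos h, h', if_neg h11, add_zero]
  have hf2 : ∀ v w, φ v w = -1 → f0 s(v, w) = μ v := by
    intro v w h
    rw [Sym2.eq_swap]
    apply hf1
    rw [hφ.anti, h]
    decide
  have hf3 : ∀ v w, ¬ Source G φ v → G.Adj v w → f0 s(v, w) = μ v := by
    intro v w hv hvw
    rcases val_cases _ (hφ.ne v w hvw) with h1 | h1
    · rw [hf1 v w h1, hR1 v w hvw h1 hv]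
    · exact hf2 v w h1
  have hflow : ∀ v, dv G φ f0 v = 0 := by
    intro v
    by_cases hv : Source G φ v
    · obtain ⟨h1, h2, h4⟩ := hab v hv.1
      obtain ⟨d, had, hbd, hN⟩ := nbr3' hv.1 h1 h2 h4
      have hd : G.Adj v d := by
        rw [← SimpleGraph.mem_neighborFinset, hN]
        simp
      unfold dv
      rw [sum3 h4 had hbd hN, hv.2 _ h1, hv.2 _ h2, hv.2 _ hd, hf1 _ _ (hv.2 _ h1),
        hf1 _ _ (hv.2 _ h2), hf1 _ _ (hv.2 _ hd)]
      have e1 := hR2 v _ hv h1
      have e2 := hR2 v _ hv h2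
      have e3 := hR2 v _ hv hd
      rw [if_neg h4.symm, if_pos rfl] at e1
      rw [if_pos rfl, if_neg h4] at e2
      rw [if_neg hbd, if_neg had] at e3
      have h3' : (3 : ZMod 3) = 0 := by decide
      linear_combination (μ v) * h3' - e1 - e2 - e3
    · unfold dv
      rw [sum_congr rfl fun w hw => by rw [hf3 v w hv (by simpa using hw)], ← sum_mul, hφ.sum v,
        zero_mul]
  have hconst : ∀ v, Sink G φ v → ∀ w w', G.Adj v w → G.Adj v w' → f0 s(v, w) = f0 s(v, w') := by
    intro v hv w w' hw hw'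
    rw [hf2 v w (hv.2 w hw), hf2 v w' (hv.2 w' hw')]
  have hall := H f0 hflow hconst
  have hnbr : ∀ v, ∃ w, G.Adj v w := by
    intro v
    have : 0 < G.degree v := by rcases hdeg v with h | h <;> omega
    exact (G.degree_pos_iff_exists_adj v).1 this
  -- everything is constant
  have hfinal : ∃ m, (∀ v, μ v = m) ∧ ∀ x, l x = 0 := by
    by_cases hV : Nonempty V
    · obtain ⟨v0⟩ := hV
      obtain ⟨w0, h0⟩ := hnbr v0
      refine ⟨f0 s(v0, w0), ?_, ?_⟩
      · intro v
        by_cases hv : Source G φ v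
        · obtain ⟨h1, h2, h4⟩ := hab v hv.1
          have e1 := hR2 v _ hv h1
          have e2 := hR2 v _ hv h2
          rw [if_neg h4.symm, if_pos rfl, ← hf1 _ _ (hv.2 _ h1), hall _ _ _ _ h1 h0] at e1
          rw [if_pos rfl, if_neg h4, ← hf1 _ _ (hv.2 _ h2), hall _ _ _ _ h2 h0] at e2
          have h3' : (3 : ZMod 3) = 0 := by decide
          linear_combination (μ v - f0 s(v0, w0)) * h3' - e1 - e2
        · obtain ⟨w, hw⟩ := hnbr v
          rw [← hf3 v w hv hw]
          exact hall _ _ _ _ hw h0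
      · rintro ⟨x, hx⟩
        obtain ⟨h1, h2, h4⟩ := hab x hx.1
        have e1 := hR2 x _ hx h1
        have e2 := hR2 x _ hx h2
        rw [if_neg h4.symm, if_pos rfl, ← hf1 _ _ (hx.2 _ h1), hall _ _ _ _ h1 h0] at e1
        rw [if_pos rfl, if_neg h4, ← hf1 _ _ (hx.2 _ h2), hall _ _ _ _ h2 h0] at e2
        have h3' : (3 : ZMod 3) = 0 := by decide
        linear_combination (l ⟨x, hx⟩) * h3' + e1 - e2
    · exact ⟨0, fun v => absurd ⟨v⟩ hV, fun x => absurd ⟨x.1⟩ hV⟩
  obtain ⟨m, hm, hl0⟩ := hfinal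
  apply hg
  rw [hgh]
  simp only [Sum.elim_inl, Sum.elim_inr, hm, hl0, mul_zero, sum_const_zero, add_zero]
  rw [← sum_mul, hδ, zero_mul]

end Pool.Agent.Helper37.OB
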